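import Pool.Agent.N754.LG.Stm
import Pool.Agent.H135R2.VS.Der

/-!
Project LG (helper754), task ST: a field generated by units with logarithmic derivatives in an
algebraically closed differential subfield (helper273).
-/

set_option autoImplicit false

open MvPolynomial

namespace Pool.Agent.N273.LG

open Pool.Agent.N754.LG

section mono

variable {K : Type} [Field K]

/-- Laurent monomials -/
def mono {m : ℕ} (u : Fin m → K) (a : Fin m → ℤ) : K := ∏ l, u l ^ a l

theorem mono_ne {m : ℕ} {u : Fin m → K} (hu : ∀ i, u i ≠ 0) (a : Fin m → ℤ) : mono u a ≠ 0 :=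
  Finset.prod_ne_zero_iff.2 fun l _ => zpow_ne_zero _ (hu l)

theorem mono_zero {m : ℕ} (u : Fin m → K) : mono u 0 = 1 := by
  unfold mono
  simp

theorem mono_add {m : ℕ} {u : Fin m → K} (hu : ∀ i, u i ≠ 0) (a b : Fin m → ℤ) :
    mono u (a + b) = mono u a * mono u b := by
  unfold mono
  rw [← Finset.prod_mul_distrib]
  exact Finset.prod_congr rfl fun l _ => zpow_add₀ (hu l) _ _

theorem mono_neg {m : ℕ} (u : Fin m → K) (a : Fin m → ℤ) : mono u (-a) = (mono u a)⁻¹ := by
  unfold mono
  rw [← Finset.prod_inv_distrib]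
  exact Finset.prod_congr rfl fun l _ => zpow_neg _ _

theorem mono_smul {m : ℕ} (u : Fin m → K) (n : ℤ) (a : Fin m → ℤ) :
    mono u (n • a) = mono u a ^ n := by
  unfold mono
  rw [← Finset.prod_zpow]
  refine Finset.prod_congr rfl fun l _ => ?_
  rw [Pi.smul_apply, smul_eq_mul, mul_comm, zpow_mul]

theorem mono_sum {m : ℕ} {u : Fin m → K} (hu : ∀ i, u i ≠ 0) {ι : Type} (s : Finset ι)
    (e : ι → ℤ) (a : ι → Fin m → ℤ) :
    mono u (∑ i ∈ s, e i • a i) = ∏ i ∈ s, mono u (a i) ^ e i := by
  classical
  induction s using Finset.induction_on with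
  | empty => simp [mono_zero]
  | insert i s hi ih => rw [Finset.sum_insert hi, Finset.prod_insert hi, mono_add hu, mono_smul, ih]

theorem mono_single {m : ℕ} (u : Fin m → K) (l : Fin m) : mono u (Pi.single l 1) = u l := by
  classical
  unfold mono
  rw [Finset.prod_eq_single l]
  · simp
  · intro j _ hj
    simp [hj]
  · simp

end mono

section der

variable {k K : Type} [Field k] [Field K] [Algebra k K]

theorem ld_mul (D : Derivation k K K) {x y : K} (hx : x ≠ 0) (hy : y ≠ 0) :
    D (x * y) / (x * y) = D x / x + D y / y := by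
  rw [D.leibniz]
  simp only [smul_eq_mul]
  field_simp
  ring

theorem ld_one (D : Derivation k K K) : D (1 : K) / 1 = 0 := by
  rw [D.map_one_eq_zero]; simp

theorem ld_inv (D : Derivation k K K) {x : K} (hx : x ≠ 0) : D x⁻¹ / x⁻¹ = -(D x / x) := by
  have h := ld_mul D hx (inv_ne_zero hx)
  rw [mul_inv_cancel₀ hx, ld_one] at h
  linear_combination -h

theorem ld_zpow (D : Derivation k K K) {x : K} (hx : x ≠ 0) (n : ℤ) :
    D (x ^ n) / x ^ n = n * (D x / x) := by
  rw [Pool.Agent.W602.GT.der_zpow D hx]
  have : x ^ n ≠ 0 := zpow_ne_zero _ hx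
  field_simp

theorem ld_mono (D : Derivation k K K) {m : ℕ} {u : Fin m → K} (hu : ∀ i, u i ≠ 0)
    (a : Fin m → ℤ) : D (mono u a) / mono u a = ∑ l, a l * (D (u l) / u l) := by
  have key : ∀ s : Finset (Fin m), D (∏ l ∈ s, u l ^ a l) / (∏ l ∈ s, u l ^ a l) =
      ∑ l ∈ s, a l * (D (u l) / u l) := by
    classical
    intro s
    induction s using Finset.induction_on with
    | empty => simp
    | insert i s hi ih =>
      rw [Finset.prod_insert hi, Finset.sum_insert hi, ld_mul D (zpow_ne_zero _ (hu i))
        (Finset.prod_ne_zero_iff.2 fun l _ => zpow_ne_zero _ (hu l)), ih, ld_zpow D (hu i)]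
  exact key Finset.univ

end der

section main

variable {k K : Type} [Field k] [Field K] [Algebra k K] [CharZero k] (κ : IntermediateField k K)

/-- the combinations of the derivations with constant coefficients which vanish on `κ` -/
def EE {w : ℕ} (D : Fin w → Derivation k K K) (ε : Fin w → K) : Prop :=
  (∀ j, ε j ∈ κ) ∧ ∀ x ∈ κ, ∑ j, ε j * D j x = 0

variable {κ}

/-- projection of a derivation over `κ` -/
theorem proj {w : ℕ} {D : Fin w → Derivation k K K}
    (hD : ∀ E : Derivation k K K, ∃ c : Fin w → K, ∀ x, E x = ∑ j, c j * D j x)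
    (hκ : ∀ j, ∀ x ∈ κ, D j x ∈ κ) (E : Derivation κ K K) (π : K →ₗ[κ] κ) :
    ∃ ε : Fin w → K, EE κ D ε ∧ ∀ x : K, (∀ j, D j x / x ∈ κ) →
      ∑ j, ε j * (D j x / x) = ((π (E x / x) : κ) : K) := by
  obtain ⟨c, hc⟩ := hD (E.restrictScalars k)
  have hcE : ∀ x, E x = ∑ j, c j * D j x := hc
  have hπ : ∀ (c z : K) (hz : z ∈ κ), ((π (c * z) : κ) : K) = (π c : K) * z := by
    intro c z hz
    have h1 : c * z = (⟨z, hz⟩ : κ) • c := by
      rw [mul_comm]; rfl
    rw [h1, map_smul, smul_eq_mul, mul_comm]
    rfl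
  refine ⟨fun j => (π (c j) : K), ⟨fun j => (π (c j)).2, fun x hx => ?_⟩, fun x hx => ?_⟩
  · have h1 : E x = 0 := by
      have := E.map_algebraMap (⟨x, hx⟩ : κ)
      exact this
    have h2 : ∀ j, (π (c j) : K) * D j x = ((π (c j * D j x) : κ) : K) := fun j =>
      (hπ _ _ (hκ j x hx)).symm
    simp only [h2]
    rw [← AddSubmonoidClass.coe_finsetSum, ← map_sum, ← hcE, h1, map_zero]
    rfl
  · have h2 : ∀ j, (π (c j) : K) * (D j x / x) = ((π (c j * (D j x / x)) : κ) : K) := fun j =>
      (hπ _ _ (hx j)).symm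
    simp only [h2]
    rw [← AddSubmonoidClass.coe_finsetSum, ← map_sum]
    congr 2
    rw [hcE, Finset.sum_div]
    exact Finset.sum_congr rfl fun j _ => by rw [mul_div_assoc]

theorem exists_pi {x : K} (hx : x ≠ 0) : ∃ π : K →ₗ[κ] κ, π x = 1 := by
  have h1 : ¬ ∀ φ : Module.Dual κ K, φ x = 0 := fun h =>
    hx ((Module.forall_dual_apply_eq_zero_iff κ x).1 h)
  push Not at h1
  obtain ⟨φ, hφ⟩ := h1
  refine ⟨(φ x)⁻¹ • φ, ?_⟩
  show (φ x)⁻¹ * φ x = 1
  exact inv_mul_cancel₀ hφ

/-- a separating combination -/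
theorem sep (hcl : ∀ x : K, IsAlgebraic κ x → x ∈ κ) {w : ℕ} {D : Fin w → Derivation k K K}
    (hD : ∀ E : Derivation k K K, ∃ c : Fin w → K, ∀ x, E x = ∑ j, c j * D j x)
    (hκ : ∀ j, ∀ x ∈ κ, D j x ∈ κ) {x : K} (hx : x ∉ κ) (hx' : ∀ j, D j x / x ∈ κ) :
    ∃ ε : Fin w → K, EE κ D ε ∧ ∑ j, ε j * (D j x / x) ≠ 0 := by
  have hx0 : x ≠ 0 := by
    rintro rfl
    exact hx κ.zero_mem
  have htr : Transcendental κ x := fun h => hx (hcl x h)
  have hai : AlgebraicIndependent κ ![x] := (algebraicIndependent_unique_type_iff (ι := Fin 1)).2 htr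
  have : CharZero κ := charZero_of_injective_algebraMap (algebraMap k κ).injective
  obtain ⟨E, hE⟩ := Pool.Agent.H135R2.VS.exists_der hai (fun _ => x)
  have hE0 : E x = x := hE 0
  obtain ⟨π, hπ⟩ := exists_pi (κ := κ) (one_ne_zero (α := K))
  obtain ⟨ε, h1, h2⟩ := proj hD hκ E π
  refine ⟨ε, h1, ?_⟩
  rw [h2 x hx', hE0, div_self hx0, hπ]
  simp

theorem st : ST := by
  intro k K _ _ _ _ κ hcl w D hD hκ m u hu hDu _
  have hcκ : CharZero κ := charZero_of_injective_algebraMap (algebraMap k κ).injective
  -- the saturated lattice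
  let H : Submodule ℤ (Fin m → ℤ) := AddSubgroup.toIntSubmodule
    { carrier := {a | mono u a ∈ κ}
      zero_mem' := by
        show mono u 0 ∈ κ
        rw [mono_zero]; exact κ.one_mem
      add_mem' := by
        intro a b ha hb
        show mono u (a + b) ∈ κ
        rw [mono_add hu]; exact κ.mul_mem ha hb
      neg_mem' := by
        intro a ha
        show mono u (-a) ∈ κ
        rw [mono_neg]; exact κ.inv_mem ha }
  have hH : ∀ a, a ∈ H ↔ mono u a ∈ κ := fun a => Iff.rfl
  have htf : Module.IsTorsionFree ℤ ((Fin m → ℤ) ⧸ H) := by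
    rw [Module.isTorsionFree_iff_smul_eq_zero]
    intro n q hq
    obtain ⟨a, rfl⟩ := Submodule.Quotient.mk_surjective H q
    by_cases hn : n = 0
    · exact Or.inl hn
    · right
      rw [← Submodule.Quotient.mk_smul, Submodule.Quotient.mk_eq_zero, hH, mono_smul] at hq
      rw [Submodule.Quotient.mk_eq_zero, hH]
      apply hcl
      have hpos : 0 < n.natAbs := Int.natAbs_pos.2 hn
      apply IsAlgebraic.of_pow hpos
      have h1 : mono u a ^ n.natAbs ∈ κ := by
        rcases Int.natAbs_eq n with h | h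
        · rw [h, zpow_natCast] at hq
          exact hq
        · rw [h, zpow_neg, zpow_natCast] at hq
          have := κ.inv_mem hq
          rwa [inv_inv] at this
      exact isAlgebraic_algebraMap (⟨_, h1⟩ : κ)
  have hfree : Module.Free ℤ ((Fin m → ℤ) ⧸ H) := Module.free_of_finite_type_torsion_free'
  set r := Module.finrank ℤ ((Fin m → ℤ) ⧸ H) with hr
  let B : Module.Basis (Fin r) ℤ ((Fin m → ℤ) ⧸ H) := Module.finBasis ℤ _
  have hlift : ∀ i : Fin r, ∃ a : Fin m → ℤ, Submodule.Quotient.mk a = B i := fun i =>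
    Submodule.Quotient.mk_surjective H (B i)
  choose A hA using hlift
  set b : Fin r → K := fun i => mono u (A i) with hb
  have hb0 : ∀ i, b i ≠ 0 := fun i => mono_ne hu _
  have hmb : ∀ e : Fin r → ℤ, mono b e = mono u (∑ i, e i • A i) := by
    intro e
    rw [mono_sum hu]
    rfl
  -- independence modulo `κ`
  have hstar : ∀ e : Fin r → ℤ, mono b e ∈ κ → e = 0 := by
    intro e he
    rw [hmb, ← hH, ← Submodule.Quotient.mk_eq_zero] at he
    have h1 : ∑ i, e i • B i = 0 := by
      rw [← he]
      have h2 : (Submodule.Quotient.mk (∑ i, e i • A i) : (Fin m → ℤ) ⧸ H) =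
          H.mkQ (∑ i, e i • A i) := rfl
      rw [h2, map_sum]
      refine Finset.sum_congr rfl fun i _ => ?_
      rw [map_smul, Submodule.mkQ_apply, hA]
    have h3 := Fintype.linearIndependent_iff.1 B.linearIndependent e h1
    funext i
    exact h3 i
  have hDb : ∀ j i, D j (b i) / b i ∈ κ := by
    intro j i
    rw [hb]
    simp only
    rw [ld_mono (D j) hu]
    refine κ.sum_mem fun l _ => κ.mul_mem ?_ (hDu j l)
    exact intCast_mem κ (A i l)
  have hDm : ∀ j (e : Fin r → ℤ), D j (mono b e) / mono b e ∈ κ := by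
    intro j e
    rw [ld_mono (D j) hb0]
    refine κ.sum_mem fun l _ => κ.mul_mem ?_ (hDb j l)
    exact intCast_mem κ (e l)
  -- linear independence of the monomials
  have hlin : ∀ (s : Finset (Fin r →₀ ℕ)) (c : (Fin r →₀ ℕ) → K), (∀ e, c e ∈ κ) →
      ∑ e ∈ s, c e * mono b (fun i => (e i : ℤ)) = 0 → ∀ e ∈ s, c e = 0 := by
    classical
    intro s
    induction s using Finset.induction_on with
    | empty => intro c _ _ e he; simp at he
    | insert e0 s he0 ih =>
      intro c hc hsum
      have h1 : ∀ e1 ∈ s, c e1 = 0 := by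
        intro e1 he1
        have hne : e1 ≠ e0 := fun h => he0 (h ▸ he1)
        have hx : mono b (fun i => (e1 i : ℤ) - (e0 i : ℤ)) ∉ κ := by
          intro h
          apply hne
          have := hstar _ h
          ext i
          have := congrFun this i
          simp only [Pi.zero_apply] at this
          omega
        obtain ⟨ε, hε, hsep⟩ := sep hcl hD hκ hx (fun j => hDm j _)
        set lam : (Fin r → ℤ) → K := fun e => ∑ j, ε j * (D j (mono b e) / mono b e) with hlam
        have hlamκ : ∀ e, lam e ∈ κ := fun e =>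
          κ.sum_mem fun j _ => κ.mul_mem (hε.1 j) (hDm j e)
        have hd : ∀ z ∈ κ, ∀ e : Fin r → ℤ, ∑ j, ε j * D j (z * mono b e) =
            lam e * (z * mono b e) := by
          intro z hz e
          have hm0 : mono b e ≠ 0 := mono_ne hb0 e
          have h2 : ∀ j, ε j * D j (z * mono b e) =
              (ε j * D j z) * mono b e + ε j * (D j (mono b e) / mono b e) * (z * mono b e) := by
            intro j
            rw [(D j).leibniz]
            simp only [smul_eq_mul]
            field_simp
            ring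
          rw [Finset.sum_congr rfl fun j _ => h2 j, Finset.sum_add_distrib, ← Finset.sum_mul,
            ← Finset.sum_mul, hε.2 z hz, zero_mul, zero_add]
        have hsum2 : ∑ e ∈ insert e0 s, lam (fun i => (e i : ℤ)) *
            (c e * mono b (fun i => (e i : ℤ))) = 0 := by
          have h3 : ∑ j, ε j * D j (∑ e ∈ insert e0 s, c e * mono b (fun i => (e i : ℤ))) = 0 := by
            rw [hsum]; simp
          rw [← h3]
          simp only [map_sum, Finset.mul_sum]
          rw [Finset.sum_comm]
          refine Finset.sum_congr rfl fun e _ => ?_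
          exact (hd (c e) (hc e) _).symm
        rw [Finset.sum_insert he0] at hsum hsum2
        have h4 : ∑ e ∈ s, ((lam (fun i => (e i : ℤ)) - lam (fun i => (e0 i : ℤ))) * c e) *
            mono b (fun i => (e i : ℤ)) = 0 := by
          have h5 : ∑ e ∈ s, ((lam (fun i => (e i : ℤ)) - lam (fun i => (e0 i : ℤ))) * c e) *
              mono b (fun i => (e i : ℤ)) =
              ∑ e ∈ s, lam (fun i => (e i : ℤ)) * (c e * mono b (fun i => (e i : ℤ))) -
              lam (fun i => (e0 i : ℤ)) * ∑ e ∈ s, c e * mono b (fun i => (e i : ℤ)) := by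
            rw [Finset.mul_sum, ← Finset.sum_sub_distrib]
            exact Finset.sum_congr rfl fun e _ => by ring
          rw [h5]
          linear_combination hsum2 - lam (fun i => (e0 i : ℤ)) * hsum
        have h6 := ih (fun e => (lam (fun i => (e i : ℤ)) - lam (fun i => (e0 i : ℤ))) * c e)
          (fun e => κ.mul_mem (κ.sub_mem (hlamκ _) (hlamκ _)) (hc e)) h4 e1 he1
        rcases mul_eq_zero.1 h6 with h7 | h7
        · exfalso
          apply hsep
          have h8 : ∀ j, D j (mono b (fun i => (e1 i : ℤ) - (e0 i : ℤ))) /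
              mono b (fun i => (e1 i : ℤ) - (e0 i : ℤ)) =
              D j (mono b (fun i => (e1 i : ℤ))) / mono b (fun i => (e1 i : ℤ)) -
              D j (mono b (fun i => (e0 i : ℤ))) / mono b (fun i => (e0 i : ℤ)) := by
            intro j
            rw [ld_mono (D j) hb0, ld_mono (D j) hb0, ld_mono (D j) hb0, ← Finset.sum_sub_distrib]
            refine Finset.sum_congr rfl fun i _ => ?_
            push_cast
            ring
          simp only [h8, mul_sub, Finset.sum_sub_distrib]
          exact h7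
        · exact h7
      intro e he
      rcases Finset.mem_insert.1 he with rfl | he
      · rw [Finset.sum_insert he0, Finset.sum_eq_zero (fun e he => by rw [h1 e he, zero_mul]),
          add_zero] at hsum
        exact (mul_eq_zero.1 hsum).resolve_right (mono_ne hb0 _)
      · exact h1 e he
  have hai : AlgebraicIndependent κ b := by
    rw [algebraicIndependent_iff]
    intro p hp
    have h1 : aeval b p = ∑ e ∈ p.support, ((p.coeff e : κ) : K) * mono b (fun i => (e i : ℤ)) := by
      rw [aeval_def, eval₂_eq']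
      refine Finset.sum_congr rfl fun e _ => ?_
      unfold mono
      simp only [zpow_natCast]
      rfl
    rw [h1] at hp
    ext e
    by_cases he : e ∈ p.support
    · have := hlin p.support (fun e => ((p.coeff e : κ) : K)) (fun e => (p.coeff e).2) hp e he
      simpa using this
    · rw [notMem_support_iff.1 he, coeff_zero]
  refine ⟨r, b, fun i => ⟨A i, rfl⟩, hai, fun l => ?_, fun i => ?_⟩
  · -- the units
    set e : Fin r → ℤ := fun i => B.repr (Submodule.Quotient.mk (Pi.single l 1)) i with he
    have h1 : Pi.single l 1 - ∑ i, e i • A i ∈ H := by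
      rw [← Submodule.Quotient.mk_eq_zero, Submodule.Quotient.mk_sub, sub_eq_zero]
      have h2 : (Submodule.Quotient.mk (∑ i, e i • A i) : (Fin m → ℤ) ⧸ H) =
          H.mkQ (∑ i, e i • A i) := rfl
      rw [h2, map_sum]
      simp only [map_smul, Submodule.mkQ_apply, hA]
      exact (B.sum_repr _).symm
    rw [hH, sub_eq_add_neg, mono_add hu, mono_neg, mono_single, ← hmb] at h1
    refine ⟨u l * (mono b e)⁻¹, h1, e, ?_⟩
    show u l = u l * (mono b e)⁻¹ * mono b e
    rw [inv_mul_cancel_right₀ (mono_ne hb0 e)]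
  · -- the dual derivations
    obtain ⟨E, hE⟩ := Pool.Agent.H135R2.VS.exists_der hai
      (fun i' => if i = i' then b i' else 0)
    obtain ⟨π, hπ⟩ := exists_pi (κ := κ) (one_ne_zero (α := K))
    obtain ⟨ε, h1, h2⟩ := proj hD hκ E π
    refine ⟨ε, h1.1, h1.2, fun i' => ?_⟩
    have h3 := h2 (b i') (fun j => hDb j i')
    have h4 : ∑ j, ε j * D j (b i') = (∑ j, ε j * (D j (b i') / b i')) * b i' := by
      rw [Finset.sum_mul]
      refine Finset.sum_congr rfl fun j _ => ?_
      have := hb0 i'
      field_simp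
    rw [h4, h3, hE]
    by_cases hi : i = i'
    · rw [if_pos hi, div_self (hb0 i'), hπ]
      simp
    · rw [if_neg hi, zero_div, map_zero]
      simp

end main

end Pool.Agent.N273.LG
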